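import Pool.Agent.N783.PQ.Sha

/-!
# Interpolation on the roots, and Hilbert 90 on the roots (project PQ, SH4)

Written by helper216 for project PQ (helper783). The proof of `exists_s` follows
`Pool.Agent.Y723.HJ.exists_root`.
-/

set_option autoImplicit false

open Polynomial
open scoped Classical Pointwise

namespace Pool.Agent.N216.PQ

open Pool.Agent.N783.PQ

/-- interpolation -/
theorem itp : S_ITP := by
  intro K Ω _ _ _ _ f hf _ w hw
  have hf0 : f.map (algebraMap K Ω) ≠ 0 := by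
    rw [Ne, Polynomial.map_eq_zero]
    exact hf.ne_zero
  set s : Finset Ω := (f.map (algebraMap K Ω)).roots.toFinset with hs
  have hmem : ∀ α : Ω, α ∈ s ↔ aeval α f = 0 := by
    intro α
    rw [hs, Multiset.mem_toFinset, mem_roots hf0, IsRoot.def, eval_map_algebraMap]
  set W0 : Polynomial Ω := Lagrange.interpolate s id w with hW0
  have hdeg : W0.degree < s.card := Lagrange.degree_interpolate_lt w Function.injective_id.injOn
  have heval : ∀ α ∈ s, W0.eval α = w α := fun α hα =>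
    Lagrange.eval_interpolate_at_node w Function.injective_id.injOn hα
  have hfix : ∀ τ : Ω ≃ₐ[K] Ω, W0.map (τ : Ω →+* Ω) = W0 := by
    intro τ
    refine Polynomial.eq_of_degrees_lt_of_eval_finset_eq s ?_ hdeg ?_
    · exact (Polynomial.degree_map_le).trans_lt hdeg
    · intro β hβ
      have hα : τ.symm β ∈ s := by
        rw [hmem] at hβ ⊢
        rw [aeval_algEquiv, AlgHom.comp_apply]
        change τ.symm (aeval β f) = 0
        rw [hβ, map_zero]
      have h1 : τ (W0.eval (τ.symm β)) = (W0.map (τ : Ω →+* Ω)).eval (τ (τ.symm β)) := by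
        rw [← Polynomial.eval₂_eq_eval_map]
        exact (Polynomial.hom_eval₂ W0 (RingHom.id Ω) (τ : Ω →+* Ω) (τ.symm β))
      rw [AlgEquiv.apply_symm_apply] at h1
      rw [← h1, heval _ hα, heval _ hβ, hw τ _ ((hmem _).1 hα), AlgEquiv.apply_symm_apply]
  have hlift : W0 ∈ lifts (algebraMap K Ω) := by
    rw [lifts_iff_coeff_lifts]
    intro n
    rw [InfiniteGalois.mem_range_algebraMap_iff_fixed]
    intro τ
    have h1 := congrArg (fun p => p.coeff n) (hfix τ)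
    simp only [coeff_map] at h1
    exact h1
  obtain ⟨W, hW⟩ := hlift
  refine ⟨W, fun α hα => ?_⟩
  have h1 : W.map (algebraMap K Ω) = W0 := hW
  rw [← eval_map_algebraMap, h1]
  exact heval α ((hmem α).2 hα)

/-- a locally constant quadratic character of the stabiliser of `α₀` comes from a square root -/
theorem exists_s {K Ω : Type} [Field K] [Field Ω] [Algebra K Ω] [IsGalois K Ω]
    (h2 : (2 : Ω) ≠ 0) (α₀ : Ω) (χ : (Ω ≃ₐ[K] Ω) → Ω) (hχ : ∀ σ, χ σ = 1 ∨ χ σ = -1)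
    (hmul : ∀ σ τ, σ α₀ = α₀ → τ α₀ = α₀ → χ (σ * τ) = χ σ * χ τ) (hc : IsLocallyConstant χ) :
    ∃ s : Ω, s ≠ 0 ∧ ∀ σ, σ α₀ = α₀ → σ s = χ σ * s := by
  have h11 : (1 : Ω) ≠ -1 := by
    intro h'
    exact h2 (by linear_combination h')
  have f1 : (1 : Ω ≃ₐ[K] Ω) α₀ = α₀ := rfl
  have fmul : ∀ {σ τ : Ω ≃ₐ[K] Ω}, σ α₀ = α₀ → τ α₀ = α₀ → (σ * τ) α₀ = α₀ := by
    intro σ τ hσ hτ
    rw [AlgEquiv.mul_apply, hτ, hσ]
  have finv : ∀ {σ : Ω ≃ₐ[K] Ω}, σ α₀ = α₀ → σ⁻¹ α₀ = α₀ := by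
    intro σ hσ
    conv_lhs => rw [← hσ]
    rw [← AlgEquiv.mul_apply, inv_mul_cancel, AlgEquiv.one_apply]
  have hone : χ 1 = 1 := by
    have := hmul 1 1 f1 f1
    rw [mul_one] at this
    rcases hχ 1 with h | h
    · exact h
    · rw [h] at this
      exact absurd (by linear_combination -this) h11
  by_cases htriv : ∀ σ : Ω ≃ₐ[K] Ω, σ α₀ = α₀ → χ σ = 1
  · exact ⟨1, one_ne_zero, fun σ hσ => by rw [htriv σ hσ, map_one, mul_one]⟩
  · push Not at htriv
    obtain ⟨τ, hτf, hτ⟩ := htriv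
    have hτ' : χ τ = -1 := (hχ τ).resolve_left hτ
    let H : Subgroup (Ω ≃ₐ[K] Ω) :=
      { carrier := {σ | σ α₀ = α₀ ∧ χ σ = 1}
        mul_mem' := by
          rintro a b ⟨ha, ha'⟩ ⟨hb, hb'⟩
          exact ⟨fmul ha hb, by rw [hmul _ _ ha hb, ha', hb', mul_one]⟩
        one_mem' := ⟨f1, hone⟩
        inv_mem' := by
          rintro a ⟨ha, ha'⟩
          refine ⟨finv ha, ?_⟩
          have := hmul a⁻¹ a (finv ha) ha
          rw [inv_mul_cancel, hone, ha', mul_one] at this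
          exact this.symm }
    have hHo : IsOpen (H : Set (Ω ≃ₐ[K] Ω)) := by
      have h3 : (H : Set (Ω ≃ₐ[K] Ω)) =
          (MulAction.stabilizer (Ω ≃ₐ[K] Ω) α₀ : Set (Ω ≃ₐ[K] Ω)) ∩ χ ⁻¹' {1} := rfl
      rw [h3]
      exact (stabilizer_isOpen_of_isIntegral α₀).inter (hc.isOpen_fiber 1)
    let Hc : ClosedSubgroup (Ω ≃ₐ[K] Ω) := ⟨H, H.isClosed_of_isOpen hHo⟩
    have hfx := InfiniteGalois.fixingSubgroup_fixedField Hc
    have hτn : τ ∉ (IntermediateField.fixedField (Hc : Subgroup (Ω ≃ₐ[K] Ω))).fixingSubgroup := by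
      rw [hfx]
      intro h
      exact hτ h.2
    rw [IntermediateField.mem_fixingSubgroup_iff] at hτn
    push Not at hτn
    obtain ⟨x, hx, hx'⟩ := hτn
    have hxH : ∀ σ : Ω ≃ₐ[K] Ω, σ α₀ = α₀ → χ σ = 1 → σ x = x := by
      intro σ hσ hσ'
      exact hx ⟨σ, hσ, hσ'⟩
    refine ⟨x - τ x, sub_ne_zero.2 (Ne.symm hx'), ?_⟩
    intro σ hσ
    rw [map_sub]
    rcases hχ σ with h | h
    · have e1 : σ x = x := hxH σ hσ h
      have e2 : σ (τ x) = τ x := by
        have h3 : χ (τ⁻¹ * σ * τ) = 1 := by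
          rw [hmul _ _ (fmul (finv hτf) hσ) hτf, hmul _ _ (finv hτf) hσ, h, mul_one,
            ← hmul _ _ (finv hτf) hτf, inv_mul_cancel, hone]
        have h4 := hxH _ (fmul (fmul (finv hτf) hσ) hτf) h3
        rw [AlgEquiv.mul_apply, AlgEquiv.mul_apply] at h4
        have h5 := congrArg τ h4
        rw [← AlgEquiv.mul_apply τ τ⁻¹, mul_inv_cancel, AlgEquiv.one_apply] at h5
        exact h5
      rw [e1, e2, h, one_mul]
    · have e1 : σ x = τ x := by
        have h3 : χ (τ⁻¹ * σ) = 1 := by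
          have h6 : χ τ⁻¹ = -1 := by
            have := hmul τ⁻¹ τ (finv hτf) hτf
            rw [inv_mul_cancel, hone, hτ'] at this
            linear_combination this
          rw [hmul _ _ (finv hτf) hσ, h, h6]
          ring
        have h4 := hxH _ (fmul (finv hτf) hσ) h3
        rw [AlgEquiv.mul_apply] at h4
        have h5 := congrArg τ h4
        rw [← AlgEquiv.mul_apply τ τ⁻¹, mul_inv_cancel, AlgEquiv.one_apply] at h5
        exact h5
      have e2 : σ (τ x) = x := by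
        have h3 : χ (σ * τ) = 1 := by
          rw [hmul _ _ hσ hτf, h, hτ']
          ring
        have h4 := hxH _ (fmul hσ hτf) h3
        rwa [AlgEquiv.mul_apply] at h4
      rw [e1, e2, h]
      ring

theorem galQB : IsGalois ℚ QB := by
  have h : @IsGalois ℚ _ QB _ (AlgebraicClosure.instAlgebra ℚ) := inferInstance
  have e : (AlgebraicClosure.instAlgebra ℚ : Algebra ℚ (AlgebraicClosure ℚ)) =
      DivisionRing.toRatAlgebra := Subsingleton.elim _ _
  rw [e] at h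
  exact h

/-- Hilbert 90 on the roots -/
theorem hil : S_HIL := by
  intro f hf χ hχ hmul hc
  haveI : IsGalois ℚ QB := galQB
  have hdeg : f.degree ≠ 0 := fun h => hf.not_isUnit (isUnit_iff_degree_eq_zero.2 h)
  obtain ⟨α₀, hα₀⟩ : ∃ α₀ : QB, aeval α₀ f = 0 :=
    IsAlgClosed.exists_aeval_eq_zero QB f hdeg
  have hroot : ∀ (σ : GQ) (α : QB), aeval α f = 0 → aeval (σ α) f = 0 := by
    intro σ α hα
    have h1 : aeval (σ α) f = σ (aeval α f) := by
      rw [aeval_algEquiv]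
      rfl
    rw [h1, hα, map_zero]
  have htrans : ∀ α : QB, aeval α f = 0 → ∃ σ : GQ, σ α₀ = α := by
    intro α hα
    have h1 := minpoly.eq_of_irreducible hf hα₀
    have h2 := minpoly.eq_of_irreducible hf hα
    have h3 : IsConjRoot ℚ α₀ α := by
      rw [isConjRoot_def, ← h1, ← h2]
    obtain ⟨σ, hσ⟩ := isConjRoot_iff_exists_algEquiv.1 h3.symm
    exact ⟨σ, hσ⟩
  obtain ⟨s, hs0, hs⟩ := exists_s (K := ℚ) (Ω := QB) two_ne_zero α₀ (fun σ => χ σ α₀)
    (fun σ => hχ σ α₀ hα₀) (fun σ τ hσ hτ => by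
      have := hmul σ τ α₀ hα₀
      rw [hτ] at this
      exact this) (hc α₀ hα₀)
  have hpm : ∀ (σ τ : GQ) (α : QB), aeval α f = 0 → σ (χ τ α) = χ τ α := by
    intro σ τ α hα
    rcases hχ τ α hα with h | h <;> rw [h]
    · exact map_one σ
    · rw [map_neg, map_one]
  have hsq : ∀ (τ : GQ) (α : QB), aeval α f = 0 → χ τ α * χ τ α = 1 := by
    intro τ α hα
    rcases hχ τ α hα with h | h <;> rw [h] <;> ring
  -- independence of the choice
  have hwd : ∀ σ σ' : GQ, σ α₀ = σ' α₀ → χ σ α₀ * σ s = χ σ' α₀ * σ' s := by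
    intro σ σ' h
    obtain ⟨ρ, hρ⟩ : ∃ ρ : GQ, ρ = σ'⁻¹ * σ := ⟨_, rfl⟩
    have h1 : ρ α₀ = α₀ := by
      rw [hρ, AlgEquiv.mul_apply, h, ← AlgEquiv.mul_apply, inv_mul_cancel, AlgEquiv.one_apply]
    have h2 : σ = σ' * ρ := by rw [hρ, mul_inv_cancel_left]
    have h3 := hmul σ' ρ α₀ hα₀
    rw [h1] at h3
    rw [h2, h3, AlgEquiv.mul_apply, hs ρ h1, map_mul, hpm σ' ρ α₀ hα₀]
    linear_combination (χ σ' α₀ * σ' s) * hsq ρ α₀ hα₀
  choose g hg using fun α : {α : QB // aeval α f = 0} => htrans α.1 α.2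
  refine ⟨fun α => if h : aeval α f = 0 then χ (g ⟨α, h⟩) α₀ * g ⟨α, h⟩ s else 0, ?_, ?_⟩
  · intro α hα
    simp only [hα, dite_true]
    refine mul_ne_zero ?_ ((_root_.map_ne_zero _).2 hs0)
    intro h
    have h1 := hsq (g ⟨α, hα⟩) α₀ hα₀
    rw [h, mul_zero] at h1
    exact zero_ne_one h1
  · intro σ α hα
    have hα' := hroot σ α hα
    simp only [hα, hα', dite_true]
    have h1 : (g ⟨σ α, hα'⟩) α₀ = (σ * g ⟨α, hα⟩) α₀ := by
      rw [AlgEquiv.mul_apply, hg, hg]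
    have h2 := hwd _ _ h1
    rw [h2, hmul σ (g ⟨α, hα⟩) α₀ hα₀, hg ⟨α, hα⟩, map_mul, hpm _ _ _ hα₀, AlgEquiv.mul_apply]
    linear_combination (-(χ (g ⟨α, hα⟩) α₀ * σ (g ⟨α, hα⟩ s))) * hsq σ α hα

end Pool.Agent.N216.PQ
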